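import Pool.Agent.Work.MP_8db9c5_an.PG.Stmts

/-!
# The block permutations form the group `∏_k Sym(n k)`
-/

namespace Pool.Agent.Work.MP_8db9c5_an.PG

namespace PPG

variable (n : ℕ → ℕ)

/-- the permutation `σ` acting on the block `k` -/
def act (k : ℕ) (σ : Equiv.Perm (Fin (n k))) (m : ℕ) : ℕ :=
  if h : Bk n k + 1 ≤ m ∧ m < Bk n k + 1 + n k then
    Bk n k + 1 + σ ⟨m - (Bk n k + 1), by omega⟩ else m

theorem act_add (k : ℕ) (σ : Equiv.Perm (Fin (n k))) (i : Fin (n k)) :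
    act n k σ (Bk n k + 1 + i) = Bk n k + 1 + σ i := by
  unfold act
  rw [dif_pos ⟨by omega, by have := i.2; omega⟩]
  congr 3
  exact Fin.ext (by simp)

/-- the product of the permutations -/
def f (π : ∀ k, Equiv.Perm (Fin (n k))) (m : ℕ) : ℕ := act n (blk n m) (π (blk n m)) m

theorem f_Bk (π : ∀ k, Equiv.Perm (Fin (n k))) (k : ℕ) : f n π (Bk n k) = Bk n k := by
  unfold f act
  rw [dif_neg]
  rw [blk_Bk]
  omega

theorem f_add (π : ∀ k, Equiv.Perm (Fin (n k))) (k : ℕ) (i : Fin (n k)) :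
    f n π (Bk n k + 1 + i) = Bk n k + 1 + π k i := by
  unfold f
  have h : blk n (Bk n k + 1 + i) = k := blk_add n i.2
  generalize hm : Bk n k + 1 + (i : ℕ) = m at h ⊢
  subst h
  have h1 := act_add n (blk n m) (π (blk n m)) i
  rw [hm] at h1
  exact h1

theorem cases' (m : ℕ) : (∃ k, m = Bk n k) ∨ ∃ (k : ℕ) (i : Fin (n k)), m = Bk n k + 1 + i := by
  rcases blk_cases n m with h | ⟨i, h⟩
  · exact Or.inl ⟨_, h⟩
  · exact Or.inr ⟨_, i, h⟩

theorem f_mul (π π' : ∀ k, Equiv.Perm (Fin (n k))) (m : ℕ) :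
    f n (π * π') m = f n π (f n π' m) := by
  rcases cases' n m with ⟨k, rfl⟩ | ⟨k, i, rfl⟩
  · rw [f_Bk, f_Bk, f_Bk]
  · rw [f_add, f_add, f_add]
    rfl

theorem f_one (m : ℕ) : f n 1 m = m := by
  rcases cases' n m with ⟨k, rfl⟩ | ⟨k, i, rfl⟩
  · rw [f_Bk]
  · rw [f_add]
    rfl

theorem blk_f (π : ∀ k, Equiv.Perm (Fin (n k))) (m : ℕ) : blk n (f n π m) = blk n m := by
  rcases cases' n m with ⟨k, rfl⟩ | ⟨k, i, rfl⟩
  · rw [f_Bk]
  · rw [f_add, blk_add n i.2, blk_add n (π k i).2]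

/-- the permutation of `ℕ` -/
def pm (π : ∀ k, Equiv.Perm (Fin (n k))) : Equiv.Perm ℕ where
  toFun := f n π
  invFun := f n π⁻¹
  left_inv m := by rw [← f_mul, inv_mul_cancel, f_one]
  right_inv m := by rw [← f_mul, mul_inv_cancel, f_one]

end PPG

open PPG in
theorem pr_PPG : PPG := by
  intro n
  refine ⟨MonoidHom.mk' (pm n) fun π π' => Equiv.ext fun m => f_mul n π π' m, ?_, ?_, ?_, ?_⟩
  · intro π
    exact ⟨fun k => f_Bk n π k, fun m => blk_f n π m⟩
  · intro π k i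
    exact f_add n π k i
  · intro π π' h
    funext k
    ext i
    have h1 := congrArg (fun ρ : Equiv.Perm ℕ => ρ (Bk n k + 1 + i)) h
    have h2 : f n π (Bk n k + 1 + i) = f n π' (Bk n k + 1 + i) := h1
    rw [f_add, f_add] at h2
    omega
  · intro ρ hρ
    have hex : ∀ (k : ℕ) (i : Fin (n k)), ∃ j : Fin (n k),
        ρ (Bk n k + 1 + i) = Bk n k + 1 + j := by
      intro k i
      have h1 := hρ.2 (Bk n k + 1 + i)
      rw [blk_add n i.2] at h1
      rcases cases' n (ρ (Bk n k + 1 + i)) with ⟨k', h⟩ | ⟨k', j, h⟩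
      · exfalso
        rw [h, blk_Bk] at h1
        subst h1
        have h2 : ρ (Bk n k' + 1 + i) = ρ (Bk n k') := h.trans (hρ.1 k').symm
        have := ρ.injective h2
        omega
      · rw [h, blk_add n j.2] at h1
        subst h1
        exact ⟨j, h⟩
    choose σ hσ using hex
    have hinj : ∀ k, Function.Injective (σ k) := by
      intro k i j hij
      have h1 := hσ k i
      rw [hij, ← hσ k j] at h1
      have := ρ.injective h1
      exact Fin.ext (by omega)
    refine ⟨fun k => Equiv.ofBijective (σ k) (Finite.injective_iff_bijective.1 (hinj k)), ?_⟩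
    refine Equiv.ext fun m => ?_
    change f n (fun k => Equiv.ofBijective (σ k)
      (Finite.injective_iff_bijective.1 (hinj k))) m = ρ m
    rcases cases' n m with ⟨k, rfl⟩ | ⟨k, i, rfl⟩
    · rw [f_Bk, hρ.1]
    · rw [f_add, hσ]
      rfl

end Pool.Agent.Work.MP_8db9c5_an.PG
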