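import Pool.Agent.Work.MP_8db9c5_an.PG.Stmts

/-!
# Item UPN: the norm in the space `XP n`
-/

set_option autoImplicit false

open Topology Filter Set

open scoped ENNReal

namespace Pool.Agent.Work.MP_8db9c5_an.PG

namespace UPN

/-- `yP n k` as a linear map -/
noncomputable def yL (n : ℕ → ℕ) (k : ℕ) : (Fin (n k) → ℝ) →ₗ[ℝ] YP n where
  toFun := yP n k
  map_add' v w := by
    apply Subtype.ext
    apply Prod.ext
    · exact lp.single_add _ _ _ _
    · show (lp.single 2 k ((4 : ℝ)⁻¹ • (v + w)) : WP n) =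
        lp.single 2 k ((4 : ℝ)⁻¹ • v) + lp.single 2 k ((4 : ℝ)⁻¹ • w)
      rw [smul_add, lp.single_add]
  map_smul' c v := by
    apply Subtype.ext
    apply Prod.ext
    · exact lp.single_smul _ _ _ _
    · show (lp.single 2 k ((4 : ℝ)⁻¹ • (c • v)) : WP n) = c • lp.single 2 k ((4 : ℝ)⁻¹ • v)
      rw [smul_comm, lp.single_smul]

/-- the other coefficients of the block `k` -/
def vv (n : ℕ → ℕ) (a : ℕ → ℝ) (k : ℕ) : Fin (n k) → ℝ := fun i => a (Bk n k + 1 + i)

lemma norm_vv (n : ℕ → ℕ) (a : ℕ → ℝ) (k : ℕ) : ‖vv n a k‖ = mx n a k := rfl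

lemma block (n : ℕ → ℕ) (a : ℕ → ℝ) (k : ℕ) :
    a (Bk n k) • uP n (Bk n k) + ∑ i : Fin (n k), a (Bk n k + 1 + i) • uP n (Bk n k + 1 + i) =
      ((lp.single 2 k (a (Bk n k)), yL n k (vv n a k)) : XP n) := by
  have h1 : a (Bk n k) • uP n (Bk n k) = ((lp.single 2 k (a (Bk n k)), 0) : XP n) := by
    rw [uP_Bk, Prod.smul_mk, smul_zero, ← lp.single_smul, smul_eq_mul, mul_one]
  have h2 : ∑ i : Fin (n k), a (Bk n k + 1 + i) • uP n (Bk n k + 1 + i) =
      ((0, yL n k (vv n a k)) : XP n) := by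
    have h3 : ∀ i : Fin (n k), a (Bk n k + 1 + i) • uP n (Bk n k + 1 + i) =
        LinearMap.inr ℝ L2 (YP n) (yL n k (a (Bk n k + 1 + i) • Pi.single i (1 : ℝ))) := by
      intro i
      rw [uP_add, map_smul, map_smul]
      rfl
    rw [Finset.sum_congr rfl fun i _ => h3 i, ← map_sum, ← map_sum]
    have h4 : ∑ i : Fin (n k), a (Bk n k + 1 + i) • Pi.single i (1 : ℝ) = vv n a k := by
      funext j
      rw [Finset.sum_apply, Finset.sum_eq_single j]
      · simp [vv]
      · intro b _ hb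
        simp [Pi.single_eq_of_ne' hb]
      · intro h
        exact absurd (Finset.mem_univ j) h
    rw [h4]
    rfl
  rw [h1, h2, Prod.mk_add_mk, add_zero, zero_add]

lemma nrm2 {G : ℕ → Type} [∀ k, NormedAddCommGroup (G k)] (f : ∀ k, G k) (s : Finset ℕ) :
    ‖∑ k ∈ s, (lp.single 2 k (f k) : lp G 2)‖ = √(∑ k ∈ s, ‖f k‖ ^ 2) := by
  have h := lp.norm_sum_single (p := 2) (by norm_num) f s
  have h2 : (2 : ℝ≥0∞).toReal = ((2 : ℕ) : ℝ) := by norm_num
  simp only [h2, Real.rpow_natCast] at h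
  rw [← h, Real.sqrt_sq (norm_nonneg _)]

lemma nrmTop (n : ℕ → ℕ) (a : ℕ → ℝ) (N : ℕ) :
    ‖∑ k ∈ Finset.range N, (lp.single ∞ k (vv n a k) : ZP n)‖ = ‖fun k : Fin N => mx n a k‖ := by
  have hF : ∀ j, (∑ k ∈ Finset.range N, (lp.single ∞ k (vv n a k) : ZP n)) j =
      if j < N then vv n a j else 0 := by
    intro j
    rw [lp.coeFn_sum, Finset.sum_apply]
    by_cases hj : j < N
    · rw [if_pos hj, Finset.sum_eq_single j]
      · exact lp.single_apply_self _ _ _
      · intro b _ hb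
        exact lp.single_apply_ne _ _ _ hb.symm
      · intro h
        exact absurd (Finset.mem_range.2 hj) h
    · rw [if_neg hj, Finset.sum_eq_zero]
      intro b hb
      refine lp.single_apply_ne _ _ _ ?_
      rintro rfl
      exact hj (Finset.mem_range.1 hb)
  refine le_antisymm ?_ ?_
  · refine lp.norm_le_of_forall_le (norm_nonneg _) fun j => ?_
    rw [hF j]
    by_cases hj : j < N
    · rw [if_pos hj, norm_vv]
      have h := norm_le_pi_norm (fun k : Fin N => mx n a k) ⟨j, hj⟩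
      exact (le_abs_self _).trans h
    · rw [if_neg hj, norm_zero]
      exact norm_nonneg _
  · rw [pi_norm_le_iff_of_nonneg (norm_nonneg _)]
    intro k
    have h := lp.norm_apply_le_norm (by simp)
      (∑ k ∈ Finset.range N, (lp.single ∞ k (vv n a k) : ZP n)) (k : ℕ)
    rw [hF k, if_pos k.2, norm_vv] at h
    have h0 : 0 ≤ mx n a k := norm_nonneg _
    rw [Real.norm_of_nonneg h0]
    exact h

end UPN

open UPN in
theorem pr_UPN (h : SBK) : UPN := by
  intro n a N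
  rw [h n (XP n) (fun m => a m • uP n m) N, Finset.sum_congr rfl fun k _ => block n a k,
    Prod.norm_def, Prod.fst_sum, Prod.snd_sum, Submodule.coe_norm, Submodule.coe_sum,
    Prod.norm_def, Prod.fst_sum, Prod.snd_sum]
  have h1 : ‖∑ k ∈ Finset.range N, (lp.single 2 k (a (Bk n k)) : L2)‖ =
      √(∑ k ∈ Finset.range N, a (Bk n k) ^ 2) := by
    rw [nrm2 (G := fun _ => ℝ) (fun k => a (Bk n k))]
    simp only [Real.norm_eq_abs, sq_abs]
  have h2 := nrmTop n a N
  have h3 : ‖∑ k ∈ Finset.range N, (lp.single 2 k ((4 : ℝ)⁻¹ • vv n a k) : WP n)‖ =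
      √(∑ k ∈ Finset.range N, mx n a k ^ 2) / 4 := by
    rw [nrm2 (G := fun k => Fin (n k) → ℝ) (fun k => (4 : ℝ)⁻¹ • vv n a k)]
    have e : ∑ k ∈ Finset.range N, ‖(4 : ℝ)⁻¹ • vv n a k‖ ^ 2 =
        (∑ k ∈ Finset.range N, mx n a k ^ 2) / 4 ^ 2 := by
      rw [Finset.sum_div]
      refine Finset.sum_congr rfl fun k _ => ?_
      rw [norm_smul, norm_vv, Real.norm_of_nonneg (by norm_num : (0 : ℝ) ≤ (4 : ℝ)⁻¹)]
      ring
    rw [e, Real.sqrt_div (Finset.sum_nonneg fun k _ => sq_nonneg _), Real.sqrt_sq (by norm_num)]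
  exact congr_arg₂ max h1 (congr_arg₂ max h2 h3)

end Pool.Agent.Work.MP_8db9c5_an.PG
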