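import Pool.Agent.Work.MP_8db9c5_an.Bd.B03
import Pool.Agent.Work.MP_8db9c5_an.PG.I_UPN
import Pool.Agent.Work.MP_8db9c5_an.PG.I_PPG

/-!
# Products of symmetric groups: assembly
-/

universe u v

namespace Pool.Agent.Work.MP_8db9c5_an.PG

theorem all_XEX : XEX :=
  pr_XEX (pr_XPR pr_YPW (pr_LRD (pr_LRB pr_LRA) pr_LRC) pr_PRR) pr_UPO (pr_UPN pr_SBK)
    (pr_UPD pr_YPW) pr_GBC (pr_UPM (pr_UPN pr_SBK))

theorem all_NSM : NSM.{u} := pr_NSM pr_NUP pr_NLO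
theorem all_LA : LA.{u, v} := pr_LA pr_NLO
theorem all_LU : LU.{u, v} := pr_LU pr_LC
theorem all_EPI : EPI.{u, v} := pr_EPI (pr_NPL all_LA all_LU pr_LI all_NSM)
theorem all_EXA : EXA.{u, v} :=
  pr_EXA all_NSM (pr_TLO all_LA) (pr_TUP all_LU all_NSM) (pr_ORD all_LA all_NSM) pr_CMB
theorem all_GRP : GRP.{u, v} := pr_GRP all_EPI all_EXA pr_PPG

end Pool.Agent.Work.MP_8db9c5_an.PG
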