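import Pool.Agent.Work.MP_8db9c5_an.Example

/-!
# Products of symmetric groups: definitions

The positions `0, 1, 2, …` are divided into blocks; the block `k` consists of the positions
`Bk n k, Bk n k + 1, …, Bk n k + n k`.
-/

set_option linter.unusedSectionVars false

open Topology Filter Set

namespace Pool.Agent.Work.MP_8db9c5_an

variable {X : Type*} [NormedAddCommGroup X] [NormedSpace ℝ X]
variable {E : Type*} [NormedAddCommGroup E] [NormedSpace ℝ E]

/-- the first position of the block `k`; the block `k` has `n k + 1` positions -/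
def Bk (n : ℕ → ℕ) (k : ℕ) : ℕ := ∑ j ∈ Finset.range k, (n j + 1)

/-- `max |a m|` over the positions `m` of the block `k` other than the first one -/
noncomputable def mx (n : ℕ → ℕ) (a : ℕ → ℝ) (k : ℕ) : ℝ :=
  ‖fun i : Fin (n k) => a (Bk n k + 1 + i)‖

/-- the norm of `∑ a_m x_m` is the maximum of the `ℓ_2` norm of the coefficients at the first
positions of the blocks, of the sup norm of the others, and of one quarter of the `ℓ_2` norm of the
sequence of the sup norms of the others in the single blocks -/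
def BlockNorm (b : UnconditionalSchauderBasis ℕ ℝ X) (n : ℕ → ℕ) : Prop :=
  ∀ (a : ℕ → ℝ) (N : ℕ), ‖∑ m ∈ Finset.range (Bk n N), a m • b m‖ =
    max (√(∑ k ∈ Finset.range N, a (Bk n k) ^ 2))
      (max ‖fun k : Fin N => mx n a k‖ (√(∑ k ∈ Finset.range N, mx n a k ^ 2) / 4))

/-- the isometry group of `E` is isomorphic to `{±1} × ∏_k Sym(n k)`, where the factor `k` acts by
permuting the vectors `dl e m`, `m = Bk n k + 1, …, Bk n k + n k` -/
def IsomGroupEqProd (e : ℕ → E) (n : ℕ → ℕ) : Prop :=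
  ∃ Φ : ℤˣ × (∀ k, Equiv.Perm (Fin (n k))) ≃* (E ≃ₗᵢ[ℝ] E),
    ∀ (s : ℤˣ) (π : ∀ k, Equiv.Perm (Fin (n k))) (k : ℕ),
      Φ (s, π) (dl e (Bk n k)) = ((s : ℤ) : ℝ) • dl e (Bk n k) ∧
      ∀ i : Fin (n k), Φ (s, π) (dl e (Bk n k + 1 + i)) =
        ((s : ℤ) : ℝ) • dl e (Bk n k + 1 + π k i)

/-- the block of the position `m` -/
def blk (n : ℕ → ℕ) (m : ℕ) : ℕ := Nat.findGreatest (fun k => Bk n k ≤ m) m

/-- the intervals `[Bk n k, q k]`, `k ∈ K`, do not overlap -/
def BChain (n : ℕ → ℕ) (K : Finset ℕ) (q : ℕ → ℕ) : Prop :=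
  (∀ k ∈ K, Bk n k ≤ q k) ∧ ∀ k ∈ K, ∀ k' ∈ K, k < k' → q k ≤ Bk n k'

/-- the quadratic variation of `τ` along intervals which start at the first positions of blocks is
at most `C ^ 2` -/
def BBound (n : ℕ → ℕ) (τ : ℕ → ℝ) (C : ℝ) : Prop :=
  ∀ (K : Finset ℕ) (q : ℕ → ℕ), BChain n K q → ∑ k ∈ K, (τ (q k) - τ (Bk n k)) ^ 2 ≤ C ^ 2

/-- `ρ` maps every block into itself and fixes the first positions of the blocks -/
def BlockPerm (n : ℕ → ℕ) (ρ : Equiv.Perm ℕ) : Prop :=
  (∀ k, ρ (Bk n k) = Bk n k) ∧ ∀ m, blk n (ρ m) = blk n m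

section blocks

variable (n : ℕ → ℕ)

@[simp] theorem Bk_zero : Bk n 0 = 0 := by simp [Bk]

theorem Bk_succ (k : ℕ) : Bk n (k + 1) = Bk n k + n k + 1 := by
  unfold Bk
  rw [Finset.sum_range_succ]
  ring

theorem Bk_strictMono : StrictMono (Bk n) :=
  strictMono_nat_of_lt_succ fun k => by rw [Bk_succ]; omega

theorem le_Bk (k : ℕ) : k ≤ Bk n k := (Bk_strictMono n).id_le k

theorem Bk_blk_le (m : ℕ) : Bk n (blk n m) ≤ m :=
  Nat.findGreatest_spec (P := fun k => Bk n k ≤ m) (m := 0) (Nat.zero_le _) (by simp)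

theorem le_blk {k m : ℕ} (h : Bk n k ≤ m) : k ≤ blk n m :=
  Nat.le_findGreatest ((le_Bk n k).trans h) h

theorem lt_Bk_blk (m : ℕ) : m < Bk n (blk n m + 1) := by
  by_contra hcon
  have := le_blk n (not_lt.1 hcon)
  omega

theorem Bk_le_iff {k m : ℕ} : Bk n k ≤ m ↔ k ≤ blk n m :=
  ⟨le_blk n, fun h => ((Bk_strictMono n).monotone h).trans (Bk_blk_le n m)⟩

theorem lt_Bk_iff {k m : ℕ} : m < Bk n k ↔ blk n m < k := by
  rw [← not_le, Bk_le_iff, not_le]

theorem blk_eq {k m : ℕ} (h1 : Bk n k ≤ m) (h2 : m < Bk n (k + 1)) : blk n m = k := by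
  have h3 := (Bk_le_iff n).1 h1
  have h4 := (lt_Bk_iff n).1 h2
  omega

@[simp] theorem blk_Bk (k : ℕ) : blk n (Bk n k) = k :=
  blk_eq n le_rfl (Bk_strictMono n (Nat.lt_succ_self k))

theorem blk_add {k i : ℕ} (hi : i < n k) : blk n (Bk n k + 1 + i) = k :=
  blk_eq n (by omega) (by rw [Bk_succ]; omega)

/-- a position is the first one of its block or `Bk n k + 1 + i` with `i < n k` -/
theorem blk_cases (m : ℕ) : m = Bk n (blk n m) ∨
    ∃ i : Fin (n (blk n m)), m = Bk n (blk n m) + 1 + i := by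
  have h1 := Bk_blk_le n m
  have h2 := lt_Bk_blk n m
  rw [Bk_succ] at h2
  rcases h1.eq_or_lt with h | h
  · exact Or.inl h.symm
  · exact Or.inr ⟨⟨m - Bk n (blk n m) - 1, by omega⟩, by simp only; omega⟩

end blocks

end Pool.Agent.Work.MP_8db9c5_an
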