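import Pool.Agent.Work.MP_8db9c5_an.PG.Defs

/-!
# The space `XP n`

`XP n` is the sup-sum of `ℓ_2` and of `YP n`, the `ℓ_2`-sum of the spaces `ℓ_∞^{n k}` with the norm
`max (sup_k ‖v_k‖, ‖v‖ / 4)`.
-/

set_option linter.unusedSectionVars false

open Topology Filter Set

open scoped ENNReal

namespace Pool.Agent.Work.MP_8db9c5_an

/-- the `ℓ_2`-sum of the spaces `ℓ_∞^{n k}` -/
abbrev WP (n : ℕ → ℕ) : Type := lp (fun k => Fin (n k) → ℝ) 2

/-- the `ℓ_∞`-sum of the spaces `ℓ_∞^{n k}` -/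
abbrev ZP (n : ℕ → ℕ) : Type := lp (fun k => Fin (n k) → ℝ) ∞

/-- the space of the pairs `(v, v / 4)` -/
def YP (n : ℕ → ℕ) : Submodule ℝ (ZP n × WP n) where
  carrier := {p | ∀ k, p.2 k = (4 : ℝ)⁻¹ • p.1 k}
  add_mem' {p q} hp hq k := by
    have h1 : (p + q).2 k = p.2 k + q.2 k := rfl
    have h2 : (p + q).1 k = p.1 k + q.1 k := rfl
    rw [h1, h2, hp k, hq k, smul_add]
  zero_mem' k := by
    have h1 : (0 : ZP n × WP n).2 k = 0 := rfl
    have h2 : (0 : ZP n × WP n).1 k = 0 := rfl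
    rw [h1, h2, smul_zero]
  smul_mem' c p hp k := by
    have h1 : (c • p).2 k = c • p.2 k := rfl
    have h2 : (c • p).1 k = c • p.1 k := rfl
    rw [h1, h2, hp k, smul_comm]

/-- the sup-sum of `ℓ_2` and `YP n` -/
abbrev XP (n : ℕ → ℕ) : Type := L2 × YP n

/-- the element of `YP n` given by the vector `v` in the block `k` -/
noncomputable def yP (n : ℕ → ℕ) (k : ℕ) (v : Fin (n k) → ℝ) : YP n :=
  ⟨(lp.single ∞ k v, lp.single 2 k ((4 : ℝ)⁻¹ • v)), by
    intro j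
    by_cases h : j = k
    · subst h
      simp
    · simp⟩

/-- the unit vectors of `XP n` -/
noncomputable def uP (n : ℕ → ℕ) (m : ℕ) : XP n :=
  if m = Bk n (blk n m) then (lp.single 2 (blk n m) 1, 0)
  else (0, yP n (blk n m) fun i => if Bk n (blk n m) + 1 + i = m then 1 else 0)

/-- the coordinate of the first position of the block `k` -/
noncomputable def cH (n : ℕ → ℕ) (k : ℕ) : StrongDual ℝ (XP n) :=
  (lp.evalCLM ℝ (fun _ : ℕ => ℝ) 2 k).comp (ContinuousLinearMap.fst ℝ L2 (YP n))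

/-- the coordinate of the other position `m` of the block `k` -/
noncomputable def cT (n : ℕ → ℕ) (k m : ℕ) : StrongDual ℝ (XP n) :=
  ∑ i : Fin (n k), (if Bk n k + 1 + i = m then (1 : ℝ) else 0) •
    (ContinuousLinearMap.proj i).comp ((lp.evalCLM ℝ (fun k => Fin (n k) → ℝ) ∞ k).comp
      ((ContinuousLinearMap.fst ℝ (ZP n) (WP n)).comp
        ((YP n).subtypeL.comp (ContinuousLinearMap.snd ℝ L2 (YP n)))))

/-- the coordinate functionals of `XP n` -/
noncomputable def cP (n : ℕ → ℕ) (m : ℕ) : StrongDual ℝ (XP n) :=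
  if m = Bk n (blk n m) then cH n (blk n m) else cT n (blk n m) m

theorem uP_Bk (n : ℕ → ℕ) (k : ℕ) : uP n (Bk n k) = (lp.single 2 k 1, 0) := by
  unfold uP
  rw [blk_Bk, if_pos rfl]

theorem yP_fst (n : ℕ → ℕ) (k : ℕ) (v : Fin (n k) → ℝ) :
    (yP n k v).1.1 = lp.single ∞ k v := rfl

theorem yP_snd (n : ℕ → ℕ) (k : ℕ) (v : Fin (n k) → ℝ) :
    (yP n k v).1.2 = lp.single 2 k ((4 : ℝ)⁻¹ • v) := rfl

theorem uP_add (n : ℕ → ℕ) (k : ℕ) (i : Fin (n k)) :
    uP n (Bk n k + 1 + i) = (0, yP n k (Pi.single i 1)) := by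
  unfold uP
  rw [blk_add n i.2, if_neg (by omega)]
  congr 2
  funext j
  by_cases h : j = i
  · subst h
    simp
  · rw [Pi.single_eq_of_ne h, if_neg]
    intro h1
    exact h (Fin.ext (by omega))

theorem cP_Bk (n : ℕ → ℕ) (k : ℕ) (x : XP n) : cP n (Bk n k) x = x.1 k := by
  have h : cP n (Bk n k) = cH n k := by
    unfold cP
    rw [blk_Bk, if_pos rfl]
  rw [h]
  rfl

theorem cP_add (n : ℕ → ℕ) (k : ℕ) (i : Fin (n k)) (x : XP n) :
    cP n (Bk n k + 1 + i) x = x.2.1.1 k i := by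
  have h : cP n (Bk n k + 1 + i) = cT n k (Bk n k + 1 + i) := by
    unfold cP
    rw [blk_add n i.2, if_neg (by omega)]
  rw [h]
  unfold cT
  rw [_root_.sum_apply, Finset.sum_eq_single i]
  · rw [if_pos rfl, one_smul]
    rfl
  · intro j _ hj
    rw [if_neg, zero_smul]
    · rfl
    · intro h1
      exact hj (Fin.ext (by omega))
  · intro h
    exact absurd (Finset.mem_univ i) h

end Pool.Agent.Work.MP_8db9c5_an
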