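import Pool.Agent.Work.MP_8db9c5_an.PG.Space

/-!
# Products of symmetric groups: the statements of the steps
-/

set_option linter.unusedSectionVars false

open Topology Filter Set

open scoped ENNReal

universe u v

namespace Pool.Agent.Work.MP_8db9c5_an.PG

/-! ## the space -/

/-- the coefficients of a functional on an `ℓ_2`-sum are square summable -/
def LRA : Prop := ∀ (G : ℕ → Type) [∀ k, NormedAddCommGroup (G k)] [∀ k, NormedSpace ℝ (G k)]
  (f : StrongDual ℝ (lp G 2)), ∃ c : ℕ → ℝ, (∀ k, 0 ≤ c k) ∧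
    (∀ k (v : G k), |f (lp.single 2 k v)| ≤ c k * ‖v‖) ∧ Summable fun k => c k ^ 2

/-- functionals on an `ℓ_2`-sum are approximated by their restrictions to finitely many summands -/
def LRB : Prop := ∀ (G : ℕ → Type) [∀ k, NormedAddCommGroup (G k)] [∀ k, NormedSpace ℝ (G k)]
  (f : StrongDual ℝ (lp G 2)) (ε : ℝ), 0 < ε → ∃ F : Finset ℕ, ∀ x : lp G 2,
    |f x - ∑ k ∈ F, f (lp.single 2 k (x k))| ≤ ε * ‖x‖

/-- the coordinates of an element of the bidual of an `ℓ_2`-sum of finite-dimensional spaces -/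
def LRC : Prop := ∀ (G : ℕ → Type) [∀ k, NormedAddCommGroup (G k)] [∀ k, NormedSpace ℝ (G k)]
  [∀ k, FiniteDimensional ℝ (G k)] (φ : StrongDual ℝ (StrongDual ℝ (lp G 2))),
    ∃ x : lp G 2, ∀ k (g : StrongDual ℝ (G k)), φ (g.comp (lp.evalCLM ℝ G 2 k)) = g (x k)

/-- an `ℓ_2`-sum of finite-dimensional spaces is reflexive -/
def LRD : Prop := ∀ (G : ℕ → Type) [∀ k, NormedAddCommGroup (G k)] [∀ k, NormedSpace ℝ (G k)]
  [∀ k, FiniteDimensional ℝ (G k)],
    Function.Surjective (NormedSpace.inclusionInDoubleDual ℝ (lp G 2))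

/-- the product of two reflexive spaces is reflexive -/
def PRR : Prop := ∀ (A B : Type) [NormedAddCommGroup A] [NormedSpace ℝ A]
  [NormedAddCommGroup B] [NormedSpace ℝ B],
    Function.Surjective (NormedSpace.inclusionInDoubleDual ℝ A) →
    Function.Surjective (NormedSpace.inclusionInDoubleDual ℝ B) →
    Function.Surjective (NormedSpace.inclusionInDoubleDual ℝ (A × B))

/-- `YP n` is complete and linearly homeomorphic to `WP n` -/
def YPW : Prop := ∀ n : ℕ → ℕ, CompleteSpace (YP n) ∧ Nonempty (YP n ≃L[ℝ] WP n)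

/-- `XP n` is complete and reflexive -/
def XPR : Prop := ∀ n : ℕ → ℕ, CompleteSpace (XP n) ∧
  Function.Surjective (NormedSpace.inclusionInDoubleDual ℝ (XP n))

/-- a sum over the first `N` blocks -/
def SBK : Prop := ∀ (n : ℕ → ℕ) (M : Type) [AddCommMonoid M] (f : ℕ → M) (N : ℕ),
  ∑ m ∈ Finset.range (Bk n N), f m =
    ∑ k ∈ Finset.range N, (f (Bk n k) + ∑ i : Fin (n k), f (Bk n k + 1 + i))

/-- biorthogonality -/
def UPO : Prop := ∀ (n : ℕ → ℕ) (i j : ℕ), cP n i (uP n j) = if i = j then 1 else 0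

/-- the norm in `XP n` -/
def UPN : Prop := ∀ (n : ℕ → ℕ) (a : ℕ → ℝ) (N : ℕ),
  ‖∑ m ∈ Finset.range (Bk n N), a m • uP n m‖ =
    max (√(∑ k ∈ Finset.range N, a (Bk n k) ^ 2))
      (max ‖fun k : Fin N => mx n a k‖ (√(∑ k ∈ Finset.range N, mx n a k ^ 2) / 4))

/-- the unit vectors span a dense subspace of `XP n` -/
def UPD : Prop := ∀ n : ℕ → ℕ, Dense (Submodule.span ℝ (Set.range (uP n)) : Set (XP n))

/-- a criterion for unconditional bases -/
def GBC : Prop := ∀ (X : Type) [NormedAddCommGroup X] [NormedSpace ℝ X] (w : ℕ → X)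
  (c : ℕ → StrongDual ℝ X), (∀ i j, c i (w j) = if i = j then 1 else 0) →
    Dense (Submodule.span ℝ (Set.range w) : Set X) →
    (∀ (a : ℕ → ℝ) (N : ℕ) (F : Finset ℕ),
      ‖∑ m ∈ Finset.range N, (if m ∈ F then a m else 0) • w m‖ ≤
        ‖∑ m ∈ Finset.range N, a m • w m‖) →
    ∀ x, HasSum (fun i => c i x • w i) x

/-- restricting the coefficients does not increase the norm in `XP n` -/
def UPM : Prop := ∀ (n : ℕ → ℕ) (a : ℕ → ℝ) (N : ℕ) (F : Finset ℕ),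
  ‖∑ m ∈ Finset.range N, (if m ∈ F then a m else 0) • uP n m‖ ≤
    ‖∑ m ∈ Finset.range N, a m • uP n m‖

/-- existence of the space -/
def XEX : Prop := ∀ n : ℕ → ℕ, ∃ (X : Type) (_ : NormedAddCommGroup X) (_ : NormedSpace ℝ X)
  (_ : CompleteSpace X) (b : UnconditionalSchauderBasis ℕ ℝ X), IsReflexive X ∧ BlockNorm b n

/-! ## consequences of the norm formula -/

/-- upper `ℓ_2` estimate -/
def NUP : Prop := ∀ (X : Type u) [NormedAddCommGroup X] [NormedSpace ℝ X]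
  (b : UnconditionalSchauderBasis ℕ ℝ X) (n : ℕ → ℕ), BlockNorm b n →
    ∀ (a : ℕ → ℝ) (N : ℕ), ‖∑ m ∈ Finset.range N, a m • b m‖ ^ 2 ≤
      ∑ m ∈ Finset.range N, a m ^ 2

/-- lower estimates -/
def NLO : Prop := ∀ (X : Type u) [NormedAddCommGroup X] [NormedSpace ℝ X]
  (b : UnconditionalSchauderBasis ℕ ℝ X) (n : ℕ → ℕ), BlockNorm b n →
    ∀ (a : ℕ → ℝ) (N : ℕ),
      (∀ m, m < N → |a m| ≤ ‖∑ m ∈ Finset.range N, a m • b m‖) ∧
      ∀ K : Finset ℕ, (∀ k ∈ K, Bk n k < N) →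
        ∑ k ∈ K, a (Bk n k) ^ 2 ≤ ‖∑ m ∈ Finset.range N, a m • b m‖ ^ 2

/-- the basis vectors are normalised and smooth -/
def NSM : Prop := ∀ (X : Type u) [NormedAddCommGroup X] [NormedSpace ℝ X]
  (b : UnconditionalSchauderBasis ℕ ℝ X) (n : ℕ → ℕ), BlockNorm b n →
    (∀ i, ‖b i‖ = 1) ∧ SmoothAt b

/-! ## the norm of the Jamesification -/

/-- the variation along intervals which start at the first positions of blocks -/
def LA : Prop := ∀ (X : Type u) [NormedAddCommGroup X] [NormedSpace ℝ X] [CompleteSpace X]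
  (b : UnconditionalSchauderBasis ℕ ℝ X) (n : ℕ → ℕ), BlockNorm b n →
    ∀ (E : Type v) [NormedAddCommGroup E] [NormedSpace ℝ E] [CompleteSpace E] (e : ℕ → E),
      IsJamesification b.basis e → ∀ z : E, BBound n (fun m => t b e m z) ‖z‖

/-- intervals which start at the other positions are dominated -/
def LC : Prop := ∀ (n : ℕ → ℕ) (τ : ℕ → ℝ) (C : ℝ), BBound n τ C →
  ∀ (K : Finset ℕ) (p q : ℕ → ℕ), (∀ k ∈ K, Bk n k ≤ p k ∧ p k < Bk n (k + 1) ∧ p k ≤ q k) →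
    (∀ k ∈ K, ∀ k' ∈ K, k < k' → q k ≤ p k') →
      ∑ k ∈ K, (τ (q k) - τ (p k)) ^ 2 ≤ 8 * C ^ 2

/-- upper bound for the norm -/
def LU : Prop := ∀ (X : Type u) [NormedAddCommGroup X] [NormedSpace ℝ X] [CompleteSpace X]
  (b : UnconditionalSchauderBasis ℕ ℝ X) (n : ℕ → ℕ), BlockNorm b n →
    ∀ (E : Type v) [NormedAddCommGroup E] [NormedSpace ℝ E] [CompleteSpace E] (e : ℕ → E),
      IsJamesification b.basis e → ∀ (z : E) (C : ℝ), 0 ≤ C →
        BBound n (fun m => t b e m z) C → (∀ p q, p < q → |t b e q z - t b e p z| ≤ C) → ‖z‖ ≤ C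

/-- the bound is invariant under the block permutations -/
def LI : Prop := ∀ (n : ℕ → ℕ) (τ : ℕ → ℝ) (C : ℝ) (ρ : Equiv.Perm ℕ), BlockPerm n ρ →
  BBound n τ C → BBound n (fun m => τ (ρ m)) C

/-- block permutations do not increase the norm -/
def NPL : Prop := ∀ (X : Type u) [NormedAddCommGroup X] [NormedSpace ℝ X] [CompleteSpace X]
  (b : UnconditionalSchauderBasis ℕ ℝ X) (n : ℕ → ℕ), BlockNorm b n →
    ∀ (E : Type v) [NormedAddCommGroup E] [NormedSpace ℝ E] [CompleteSpace E] (e : ℕ → E),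
      IsJamesification b.basis e → ∀ ρ : Equiv.Perm ℕ, BlockPerm n ρ →
        ∀ w z : E, (∀ m, t b e m w = t b e (ρ m) z) → ‖w‖ ≤ ‖z‖

/-- block permutations give isometries -/
def EPI : Prop := ∀ (X : Type u) [NormedAddCommGroup X] [NormedSpace ℝ X] [CompleteSpace X]
  (b : UnconditionalSchauderBasis ℕ ℝ X) (n : ℕ → ℕ), BlockNorm b n →
    ∀ (E : Type v) [NormedAddCommGroup E] [NormedSpace ℝ E] [CompleteSpace E] (e : ℕ → E),
      IsJamesification b.basis e → ∀ π : Equiv.Perm ℕ, BlockPerm n π →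
        ∃ T : E ≃ₗᵢ[ℝ] E, ∀ m, T (dl e m) = dl e (π m)

/-! ## test vectors -/

/-- lower bounds -/
def TLO : Prop := ∀ (X : Type u) [NormedAddCommGroup X] [NormedSpace ℝ X] [CompleteSpace X]
  (b : UnconditionalSchauderBasis ℕ ℝ X) (n : ℕ → ℕ), BlockNorm b n →
    ∀ (E : Type v) [NormedAddCommGroup E] [NormedSpace ℝ E] [CompleteSpace E] (e : ℕ → E),
      IsJamesification b.basis e →
        (∀ k, 1 < ‖dl e (Bk n (k + 1))‖) ∧
        (∀ k, 2 < ‖dl e 0 - dl e (Bk n (k + 1))‖) ∧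
        ∀ m, m ≠ Bk n (blk n m) → ∀ k, k + 1 ≤ blk n m → 2 < ‖dl e m - dl e (Bk n (k + 1))‖

/-- upper bounds -/
def TUP : Prop := ∀ (X : Type u) [NormedAddCommGroup X] [NormedSpace ℝ X] [CompleteSpace X]
  (b : UnconditionalSchauderBasis ℕ ℝ X) (n : ℕ → ℕ), BlockNorm b n →
    ∀ (E : Type v) [NormedAddCommGroup E] [NormedSpace ℝ E] [CompleteSpace E] (e : ℕ → E),
      IsJamesification b.basis e →
        ‖dl e 0‖ ≤ 1 ∧ (∀ m, m ≠ Bk n (blk n m) → ‖dl e m‖ ≤ 1) ∧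
        ∀ m, m ≠ Bk n (blk n m) → ∀ k, blk n m < k → ‖dl e m - dl e (Bk n k)‖ ≤ 2

/-- the order of the first positions of the blocks is preserved -/
def ORD : Prop := ∀ (X : Type u) [NormedAddCommGroup X] [NormedSpace ℝ X] [CompleteSpace X]
  (b : UnconditionalSchauderBasis ℕ ℝ X) (n : ℕ → ℕ), BlockNorm b n →
    ∀ (E : Type v) [NormedAddCommGroup E] [NormedSpace ℝ E] [CompleteSpace E] (e : ℕ → E),
      IsJamesification b.basis e → ∀ (T : E ≃ₗᵢ[ℝ] E) (s : ℝ) (π : Equiv.Perm ℕ),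
        (s = 1 ∨ s = -1) → (∀ m, T (dl e m) = s • dl e (π m)) →
          StrictMono fun k => π.symm (Bk n k)

/-- a permutation of the positions which preserves the norms of the test vectors and the order of
the first positions of the blocks is a block permutation; the hypotheses are on a function
`ν m` (`= ‖dl e m‖`) and a function `μ m m'` (`= ‖dl e m - dl e m'‖`) -/
def CMB : Prop := ∀ (n : ℕ → ℕ) (ν : ℕ → ℝ) (μ : ℕ → ℕ → ℝ) (π : Equiv.Perm ℕ),
  (∀ m, ν (π m) = ν m) → (∀ m m', μ (π m) (π m') = μ m m') →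
  StrictMono (fun k => π.symm (Bk n k)) →
  (∀ k, 1 < ν (Bk n (k + 1))) → ν 0 ≤ 1 → (∀ m, m ≠ Bk n (blk n m) → ν m ≤ 1) →
  (∀ k, 2 < μ 0 (Bk n (k + 1))) →
  (∀ m, m ≠ Bk n (blk n m) → ∀ k, k + 1 ≤ blk n m → 2 < μ m (Bk n (k + 1))) →
  (∀ m, m ≠ Bk n (blk n m) → ∀ k, blk n m < k → μ m (Bk n k) ≤ 2) → BlockPerm n π

/-- the structure of the isometries -/
def EXA : Prop := ∀ (X : Type u) [NormedAddCommGroup X] [NormedSpace ℝ X] [CompleteSpace X]
  (b : UnconditionalSchauderBasis ℕ ℝ X) (n : ℕ → ℕ), IsReflexive X → BlockNorm b n →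
    ∀ (E : Type v) [NormedAddCommGroup E] [NormedSpace ℝ E] [CompleteSpace E] (e : ℕ → E),
      IsJamesification b.basis e → ∀ T : E ≃ₗᵢ[ℝ] E, ∃ (s : ℝ) (π : Equiv.Perm ℕ),
        (s = 1 ∨ s = -1) ∧ BlockPerm n π ∧ ∀ m, T (dl e m) = s • dl e (π m)

/-! ## the group -/

/-- the block permutations form the group `∏_k Sym(n k)` -/
def PPG : Prop := ∀ n : ℕ → ℕ, ∃ P : (∀ k, Equiv.Perm (Fin (n k))) →* Equiv.Perm ℕ,
  (∀ π, BlockPerm n (P π)) ∧
  (∀ π k (i : Fin (n k)), P π (Bk n k + 1 + i) = Bk n k + 1 + π k i) ∧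
  Function.Injective P ∧ ∀ ρ, BlockPerm n ρ → ∃ π, P π = ρ

/-- the isometry group is `{±1} × ∏_k Sym(n k)` -/
def GRP : Prop := ∀ (X : Type u) [NormedAddCommGroup X] [NormedSpace ℝ X] [CompleteSpace X]
  (b : UnconditionalSchauderBasis ℕ ℝ X) (n : ℕ → ℕ), IsReflexive X → BlockNorm b n →
    ∀ (E : Type v) [NormedAddCommGroup E] [NormedSpace ℝ E] [CompleteSpace E] (e : ℕ → E),
      IsJamesification b.basis e → IsomGroupEqProd e n

end Pool.Agent.Work.MP_8db9c5_an.PG
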