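import Pool.Agent.Work.MP_8db9c5_an.PG.Stmts

/-!
# The product of infinitely many nontrivial symmetric groups is uncountable
-/

namespace Pool.Agent.Work.MP_8db9c5_an.PG

theorem uncountable_prod (n : ℕ → ℕ) (h : {k | 2 ≤ n k}.Infinite) :
    Uncountable (∀ k, Equiv.Perm (Fin (n k))) := by
  classical
  set S := {k | 2 ≤ n k} with hS
  have : Infinite S := h.to_subtype
  have hunc : Uncountable (Set S) := by
    rw [← Cardinal.aleph0_lt_mk_iff, Cardinal.mk_set]
    exact (Cardinal.aleph0_le_mk S).trans_lt (Cardinal.cantor _)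
  set F : Set S → ∀ k, Equiv.Perm (Fin (n k)) := fun A k =>
    if hk : 2 ≤ n k then
      (if (⟨k, hk⟩ : S) ∈ A then Equiv.swap ⟨0, by omega⟩ ⟨1, by omega⟩ else 1) else 1 with hF
  have hinj : Function.Injective F := by
    intro A B hAB
    ext ⟨k, hk⟩
    have hk' : 2 ≤ n k := hk
    have h1 := congrFun hAB k
    rw [hF] at h1
    simp only [dif_pos hk'] at h1
    have hne : (Equiv.swap (⟨0, by omega⟩ : Fin (n k)) ⟨1, by omega⟩ : Equiv.Perm (Fin (n k))) ≠
        1 := by
      intro h2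
      have h3 := congrArg (fun σ : Equiv.Perm (Fin (n k)) => σ ⟨0, by omega⟩) h2
      simp at h3
    by_cases hA : (⟨k, hk⟩ : S) ∈ A
    · by_cases hB : (⟨k, hk⟩ : S) ∈ B
      · exact ⟨fun _ => hB, fun _ => hA⟩
      · rw [if_pos hA, if_neg hB] at h1
        exact absurd h1 hne
    · by_cases hB : (⟨k, hk⟩ : S) ∈ B
      · rw [if_neg hA, if_pos hB] at h1
        exact absurd h1.symm hne
      · exact ⟨fun h => absurd h hA, fun h => absurd h hB⟩
  exact hinj.uncountable

theorem uncountable_of_group {E : Type*} [NormedAddCommGroup E] [NormedSpace ℝ E] {e : ℕ → E}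
    {n : ℕ → ℕ} (h : IsomGroupEqProd e n) (hn : {k | 2 ≤ n k}.Infinite) :
    Uncountable (E ≃ₗᵢ[ℝ] E) := by
  obtain ⟨Φ, _⟩ := h
  have := uncountable_prod n hn
  have h1 : Function.Injective fun π : ∀ k, Equiv.Perm (Fin (n k)) => Φ (1, π) := by
    intro π π' h2
    have h3 := Φ.injective h2
    exact (Prod.ext_iff.1 h3).2
  exact h1.uncountable

end Pool.Agent.Work.MP_8db9c5_an.PG
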